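import Pool.Agent.Helper28.T3.StB

/-!
# Project T3, module WB: upper bounds for `Wf` and its integral
-/

set_option autoImplicit false

open MeasureTheory

namespace Pool.Agent.Helper94.T3

open Pool.Agent.Helper28.T3

private lemma mul_sqrt_eq {m : ℝ} (hm : 0 < m) : m * Real.sqrt m = m ^ (3 / 2 : ℝ) := by
  rw [Real.sqrt_eq_rpow]
  nth_rewrite 1 [← Real.rpow_one m]
  rw [← Real.rpow_add hm]
  norm_num

private lemma sq_s {m : ℝ} (hm : 0 < m) : (2 * m * Real.sqrt m) ^ 2 = 4 * m ^ 3 := by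
  rw [mul_pow, Real.sq_sqrt hm.le]
  ring

private lemma first_le (a : ℝ) {m : ℝ} (hm : 0 < m) :
    Real.sqrt (4 * m ^ 3 - 3 * a ^ 2 * m ^ 2) ≤ 2 * m * Real.sqrt m := by
  have hs : 0 ≤ 2 * m * Real.sqrt m := by positivity
  rw [Real.sqrt_le_left hs, sq_s hm]
  nlinarith [sq_nonneg (a * m)]

private lemma wf1 (X a : ℝ) {m : ℝ} (hm : 0 < m) : Wf X a m ≤ 2 * m * Real.sqrt m := by
  have hs : 0 ≤ 2 * m * Real.sqrt m := by positivity
  unfold Wf
  refine max_le hs ?_
  linarith [first_le a hm, Real.sqrt_nonneg (4 * m ^ 3 - a ^ 2 * X)]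

private lemma wf2 {X a : ℝ} (hX : 0 < X) (ha : 0 < a) {m : ℝ} (hm : 0 < m) :
    Wf X a m ≤ a ^ 2 * X / (2 * m * Real.sqrt m) := by
  have hs : 0 < 2 * m * Real.sqrt m := by positivity
  have h1 := first_le a hm
  have h2 := sq_s hm
  set s := 2 * m * Real.sqrt m with hsdef
  have hq : 0 < a ^ 2 * X := by positivity
  unfold Wf
  refine max_le (by positivity) ?_
  have h3 : s - a ^ 2 * X / s ≤ Real.sqrt (4 * m ^ 3 - a ^ 2 * X) := by
    rcases le_or_gt (s - a ^ 2 * X / s) 0 with h | h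
    · exact h.trans (Real.sqrt_nonneg _)
    · refine Real.le_sqrt_of_sq_le ?_
      have h4 : a ^ 2 * X / s < s := by linarith
      have h5 : (a ^ 2 * X / s) * s = a ^ 2 * X := by field_simp
      have h6 : 0 < a ^ 2 * X / s := by positivity
      set u := a ^ 2 * X / s with hu
      rw [← h2, ← h5]
      nlinarith
  linarith

private lemma wf_cont (X a : ℝ) : Continuous (Wf X a) := by
  unfold Wf
  fun_prop

private lemma wf_nonneg (X a m : ℝ) : 0 ≤ Wf X a m := by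
  unfold Wf
  exact le_max_left _ _

private lemma wf_zero (X a : ℝ) : Wf X a 0 = 0 := by
  unfold Wf
  simp

private lemma int1 (X a : ℝ) {T : ℝ} (hT : 0 ≤ T) :
    ∫ m in (0:ℝ)..T, Wf X a m ≤ 4 / 5 * T ^ (5 / 2 : ℝ) := by
  have hi : IntervalIntegrable (fun m : ℝ => 2 * m ^ (3 / 2 : ℝ)) volume 0 T := by
    apply IntervalIntegrable.const_mul
    exact intervalIntegral.intervalIntegrable_rpow' (by norm_num)
  have h := intervalIntegral.integral_mono_on hT ((wf_cont X a).intervalIntegrable 0 T) hi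
    (fun m hm => by
      rcases hm.1.eq_or_lt with h0 | h0
      · rw [← h0, wf_zero]
        positivity
      · refine (wf1 X a h0).trans (le_of_eq ?_)
        rw [mul_assoc, mul_sqrt_eq h0])
  refine h.trans (le_of_eq ?_)
  rw [intervalIntegral.integral_const_mul, integral_rpow (Or.inl (by norm_num))]
  have e : (3 / 2 + 1 : ℝ) = 5 / 2 := by norm_num
  rw [e, Real.zero_rpow (by norm_num)]
  ring

private lemma int2 {X a : ℝ} (hX : 0 < X) (ha : 0 < a) {Y T : ℝ} (hY : 0 < Y) (hT : Y ≤ T) :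
    ∫ m in Y..T, Wf X a m ≤ a ^ 2 * X * Y ^ (-(1 / 2) : ℝ) := by
  have h0 : (0 : ℝ) ∉ Set.uIcc Y T := by
    rw [Set.uIcc_of_le hT]
    exact fun h => absurd h.1 (not_le.2 hY)
  have hi : IntervalIntegrable (fun m : ℝ => a ^ 2 * X / 2 * m ^ (-(3 / 2) : ℝ)) volume Y T := by
    apply IntervalIntegrable.const_mul
    exact intervalIntegral.intervalIntegrable_rpow (Or.inr h0)
  have h := intervalIntegral.integral_mono_on hT ((wf_cont X a).intervalIntegrable Y T) hi
    (fun m hm => by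
      have hm0 : 0 < m := hY.trans_le hm.1
      refine (wf2 hX ha hm0).trans (le_of_eq ?_)
      rw [mul_assoc 2, mul_sqrt_eq hm0, Real.rpow_neg hm0.le]
      have : (0 : ℝ) < m ^ (3 / 2 : ℝ) := by positivity
      field_simp)
  refine h.trans ?_
  rw [intervalIntegral.integral_const_mul, integral_rpow (Or.inr ⟨by norm_num, h0⟩)]
  have e : (-(3 / 2) + 1 : ℝ) = -(1 / 2) := by norm_num
  rw [e]
  have hp : (0 : ℝ) ≤ T ^ (-(1 / 2) : ℝ) := Real.rpow_nonneg (hY.le.trans hT) _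
  have hq : 0 < a ^ 2 * X := by positivity
  have : a ^ 2 * X / 2 * ((T ^ (-(1 / 2) : ℝ) - Y ^ (-(1 / 2) : ℝ)) / (-(1 / 2))) =
      a ^ 2 * X * Y ^ (-(1 / 2) : ℝ) - a ^ 2 * X * T ^ (-(1 / 2) : ℝ) := by ring
  rw [this]
  nlinarith

private lemma iwn (X a : ℝ) : 0 ≤ IW X a := by
  unfold IW
  exact intervalIntegral.integral_nonneg (Real.sqrt_nonneg _) (fun m _ => wf_nonneg X a m)

private lemma iwle {X a : ℝ} (hX : 0 < X) (ha : 1 ≤ a) : IW X a ≤ 2 * a ^ 2 * X ^ (5 / 6 : ℝ) := by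
  have ha0 : 0 < a := by linarith
  set T := Real.sqrt (X / 3) with hTd
  have hT : 0 ≤ T := Real.sqrt_nonneg _
  set Y := X ^ (1 / 3 : ℝ) with hYd
  have hY : 0 < Y := by positivity
  have e1 : Y ^ (5 / 2 : ℝ) = X ^ (5 / 6 : ℝ) := by
    rw [hYd, ← Real.rpow_mul hX.le]
    norm_num
  have e2 : X * Y ^ (-(1 / 2) : ℝ) = X ^ (5 / 6 : ℝ) := by
    rw [hYd, ← Real.rpow_mul hX.le]
    nth_rewrite 1 [← Real.rpow_one X]
    rw [← Real.rpow_add hX]
    norm_num
  have hp : 0 < X ^ (5 / 6 : ℝ) := by positivity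
  have ha2 : 1 ≤ a ^ 2 := by nlinarith
  unfold IW
  rw [← hTd]
  rcases le_or_gt T Y with h | h
  · refine (int1 X a hT).trans ?_
    have h1 : T ^ (5 / 2 : ℝ) ≤ Y ^ (5 / 2 : ℝ) := Real.rpow_le_rpow hT h (by norm_num)
    rw [e1] at h1
    nlinarith
  · have hsplit : ∫ m in (0:ℝ)..T, Wf X a m =
        (∫ m in (0:ℝ)..Y, Wf X a m) + ∫ m in Y..T, Wf X a m :=
      (intervalIntegral.integral_add_adjacent_intervals ((wf_cont X a).intervalIntegrable 0 Y)
        ((wf_cont X a).intervalIntegrable Y T)).symm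
    rw [hsplit]
    have h1 := int1 X a hY.le
    have h2 := int2 hX ha0 hY h.le
    rw [e1] at h1
    rw [mul_assoc, e2] at h2
    nlinarith

theorem hWB : StWB := by
  intro X a hX ha
  exact ⟨fun m hm => ⟨wf1 X a hm, wf2 hX ha hm⟩, iwn X a, fun h => iwle hX h⟩

end Pool.Agent.Helper94.T3
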